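import Pool.Agent.N371.UD.Cycle

/-!
Polygonal chains with increasing heights as monotone curves.
-/

set_option autoImplicit false

namespace Pool.Agent.N371.UD

/-- the point of the plane with the given integer coordinates -/
def toR (p : ℤ × ℤ) : ℝ × ℝ := ((p.1 : ℝ), (p.2 : ℝ))

/-- The polygonal chain through the points of the list: the union of the segments joining
consecutive points. -/
def chainSet (l : List (ℤ × ℤ)) : Set (ℝ × ℝ) :=
  {z | ∃ p q : ℤ × ℤ, [p, q] <:+: l ∧ z ∈ segment ℝ (toR p) (toR q)}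

/-- first coordinate of the chain at a given height -/
noncomputable def ev : List (ℤ × ℤ) → ℝ → ℝ
  | [], _ => 0
  | [p], _ => (p.1 : ℝ)
  | p :: q :: l, y =>
    if y ≤ (q.2 : ℝ) then (p.1 : ℝ) + (max y (p.2 : ℝ) - p.2) / ((q.2 : ℝ) - p.2) * ((q.1 : ℝ) - p.1)
    else ev (q :: l) y

/-- the heights increase along the list -/
def Up (l : List (ℤ × ℤ)) : Prop := l.Pairwise (fun p q => p.2 < q.2)

theorem Up.tail {p : ℤ × ℤ} {l : List (ℤ × ℤ)} (h : Up (p :: l)) : Up l := (List.pairwise_cons.1 h).2

theorem Up.head {p q : ℤ × ℤ} {l : List (ℤ × ℤ)} (h : Up (p :: q :: l)) : (p.2 : ℝ) < q.2 := by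
  have := (List.pairwise_cons.1 h).1 q (by simp)
  exact_mod_cast this

theorem ev_below {p : ℤ × ℤ} {l : List (ℤ × ℤ)} (h : Up (p :: l)) {y : ℝ} (hy : y ≤ p.2) :
    ev (p :: l) y = p.1 := by
  cases l with
  | nil => rfl
  | cons q l =>
    have := h.head
    rw [ev, if_pos (hy.trans this.le), max_eq_right hy]
    simp

theorem ev_cont : ∀ (l : List (ℤ × ℤ)) (_ : Up l), Continuous (ev l)
  | [], _ => by
    have : ev [] = fun _ => (0 : ℝ) := rfl
    rw [this]; exact continuous_const
  | [p], _ => by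
    have : ev [p] = fun _ => (p.1 : ℝ) := rfl
    rw [this]; exact continuous_const
  | p :: q :: l, h => by
    have hlt := h.head
    have e : ev (p :: q :: l) = fun y => if y ≤ (q.2 : ℝ) then
        (p.1 : ℝ) + (max y (p.2 : ℝ) - p.2) / ((q.2 : ℝ) - p.2) * ((q.1 : ℝ) - p.1)
      else ev (q :: l) y := by
      funext y; rw [ev]
    rw [e]
    refine Continuous.if_le ?_ (ev_cont (q :: l) h.tail) continuous_id continuous_const ?_
    · fun_prop
    · intro y hy
      subst hy
      rw [ev_below h.tail le_rfl, max_eq_left hlt.le, div_self (by linarith)]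
      ring

theorem ev_head {p : ℤ × ℤ} {l : List (ℤ × ℤ)} (h : Up (p :: l)) : ev (p :: l) p.2 = p.1 :=
  ev_below h le_rfl

theorem up_le_last : ∀ {l : List (ℤ × ℤ)} {r : ℤ × ℤ}, Up l → l.getLast? = some r →
    ∀ q ∈ l, q.2 ≤ r.2
  | [], _, _, h, _, _ => by simp at h
  | [p], r, _, h, q, hq => by
    simp at h hq
    rw [hq, h]
  | p :: p' :: l, r, hu, h, q, hq => by
    have h' : (p' :: l).getLast? = some r := by simpa [List.getLast?_cons_cons] using h
    rcases List.mem_cons.1 hq with rfl | hq
    · have h1 := up_le_last hu.tail h' p' (by simp)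
      have h2 := (List.pairwise_cons.1 hu).1 p' (by simp)
      omega
    · exact up_le_last hu.tail h' q hq

theorem up_head_le {p : ℤ × ℤ} {l : List (ℤ × ℤ)} (h : Up (p :: l)) : ∀ q ∈ p :: l, p.2 ≤ q.2 := by
  intro q hq
  rcases List.mem_cons.1 hq with rfl | hq
  · exact le_rfl
  · exact ((List.pairwise_cons.1 h).1 q hq).le

theorem ev_above : ∀ {l : List (ℤ × ℤ)} {r : ℤ × ℤ}, Up l → l.getLast? = some r →
    ∀ y : ℝ, (r.2 : ℝ) ≤ y → ev l y = r.1
  | [], _, _, h, _, _ => by simp at h
  | [p], r, _, h, y, _ => by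
    simp at h
    rw [← h]; rfl
  | p :: p' :: l, r, hu, h, y, hy => by
    have h' : (p' :: l).getLast? = some r := by simpa [List.getLast?_cons_cons] using h
    have hlt := hu.head
    have hle : (p'.2 : ℝ) ≤ r.2 := by exact_mod_cast up_le_last hu.tail h' p' (by simp)
    rw [ev]
    split_ifs with hc
    · have hyq : y = p'.2 := le_antisymm hc (hle.trans hy)
      have hr : (r.2 : ℝ) = p'.2 := le_antisymm (hy.trans hc) hle
      have := ev_above hu.tail h' y hy
      rw [hyq, ev_head hu.tail] at this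
      rw [hyq, max_eq_left hlt.le, div_self (by linarith), ← this]
      ring
    · exact ev_above hu.tail h' y hy

theorem ev_mem : ∀ {l : List (ℤ × ℤ)} (_ : Up l) {q : ℤ × ℤ}, q ∈ l → ev l q.2 = q.1
  | [], _, _, h => by simp at h
  | [p], _, q, hq => by
    simp at hq
    rw [hq]; rfl
  | p :: p' :: l, hu, q, hq => by
    have hlt := hu.head
    rcases List.mem_cons.1 hq with rfl | hq
    · exact ev_head hu
    · have h1 := ev_mem hu.tail hq
      have h2 : (p'.2 : ℝ) ≤ q.2 := by exact_mod_cast up_head_le hu.tail q hq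
      rw [ev]
      split_ifs with hc
      · have hyq : (q.2 : ℝ) = p'.2 := le_antisymm hc h2
        rw [hyq, ev_head hu.tail] at h1
        rw [hyq, max_eq_left hlt.le, div_self (by linarith), ← h1]
        ring
      · exact h1

theorem ev_ge : ∀ {l : List (ℤ × ℤ)} (_ : Up l) (_ : l ≠ []) (m : ℝ), (∀ q ∈ l, m ≤ (q.1 : ℝ)) →
    ∀ y, m ≤ ev l y
  | [], _, h, _, _, _ => absurd rfl h
  | [p], _, _, m, hm, y => hm p (by simp)
  | p :: p' :: l, hu, _, m, hm, y => by
    have hlt := hu.head
    rw [ev]
    split_ifs with hc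
    · have h1 := hm p (by simp)
      have h2 := hm p' (by simp)
      set t : ℝ := (max y (p.2 : ℝ) - p.2) / ((p'.2 : ℝ) - p.2) with ht
      have ht0 : 0 ≤ t := div_nonneg (by linarith [le_max_right y (p.2 : ℝ)]) (by linarith)
      have ht1 : t ≤ 1 := by
        rw [ht, div_le_one (by linarith)]
        have : max y (p.2 : ℝ) ≤ p'.2 := max_le hc hlt.le
        linarith
      nlinarith
    · exact ev_ge hu.tail (by simp) m (fun q hq => hm q (by simp only [List.mem_cons] at hq ⊢; tauto)) y

theorem chainSet_tail {p : ℤ × ℤ} {l : List (ℤ × ℤ)} {z : ℝ × ℝ} (h : z ∈ chainSet l) :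
    z ∈ chainSet (p :: l) := by
  obtain ⟨a, b, hab, hz⟩ := h
  exact ⟨a, b, hab.trans (List.suffix_cons p l).isInfix, hz⟩

theorem ev_in : ∀ {l : List (ℤ × ℤ)} {p r : ℤ × ℤ}, Up l → l.head? = some p →
    l.getLast? = some r → p ≠ r → ∀ y : ℝ, (p.2 : ℝ) ≤ y → y ≤ r.2 → (ev l y, y) ∈ chainSet l
  | [], _, _, _, h, _, _, _, _, _ => by simp at h
  | [p], a, b, _, h1, h2, hne, _, _, _ => by
    simp at h1 h2
    exact absurd (h1.symm.trans h2) hne
  | p :: p' :: l, a, r, hu, h1, h2, hne, y, hy1, hy2 => by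
    have h' : (p' :: l).getLast? = some r := by simpa [List.getLast?_cons_cons] using h2
    have hpa : p = a := by simpa using h1
    subst hpa
    have hlt := hu.head
    rw [ev]
    split_ifs with hc
    · refine ⟨p, p', ⟨[], l, by simp⟩, ?_⟩
      rw [max_eq_left hy1]
      set t : ℝ := (y - p.2) / ((p'.2 : ℝ) - p.2) with ht
      have ht0 : 0 ≤ t := div_nonneg (by linarith) (by linarith)
      have ht1 : t ≤ 1 := by
        rw [ht, div_le_one (by linarith)]
        linarith
      have hty : t * ((p'.2 : ℝ) - p.2) = y - p.2 := div_mul_cancel₀ _ (by linarith)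
      refine ⟨1 - t, t, by linarith, ht0, by ring, ?_⟩
      ext
      · simp only [toR, Prod.fst_add, Prod.smul_fst, smul_eq_mul]
        ring
      · simp only [toR, Prod.snd_add, Prod.smul_snd, smul_eq_mul]
        linarith
    · push Not at hc
      by_cases hpr : p' = r
      · subst hpr
        linarith
      · exact chainSet_tail (ev_in hu.tail (by simp) h' hpr y hc.le hy2)

/-- the monotone curve of a chain -/
noncomputable def curveOf (l : List (ℤ × ℤ)) (p r : ℤ × ℤ) (hu : Up l) (hp : l.head? = some p)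
    (hr : l.getLast? = some r) (hne : p ≠ r) : MCurve where
  lo := toR p
  hi := toR r
  F := ev l
  lt := by
    obtain ⟨t, rfl⟩ : ∃ t, l = p :: t := by
      cases l with
      | nil => simp at hp
      | cons a t => exact ⟨t, by simp at hp; rw [hp]⟩
    have h1 : r ∈ p :: t := List.mem_of_getLast? hr
    rcases List.mem_cons.1 h1 with h2 | h2
    · exact absurd h2.symm hne
    · have := (List.pairwise_cons.1 hu).1 r h2
      change (p.2 : ℝ) < r.2
      exact_mod_cast this
  cont := ev_cont l hu
  below := by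
    obtain ⟨t, rfl⟩ : ∃ t, l = p :: t := by
      cases l with
      | nil => simp at hp
      | cons a t => exact ⟨t, by simp at hp; rw [hp]⟩
    intro y hy
    exact ev_below hu hy
  above := fun y hy => ev_above hu hr y hy

end Pool.Agent.N371.UD
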