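import Mathlib

/-!
Parity of sides for monotone curves in the plane.
-/

set_option autoImplicit false

namespace Pool.Agent.N371.UD

/-- A curve which is the graph of a continuous function of the height between two points. Outside
the heights of its end points the function is constant. -/
structure MCurve where
  /-- lower end -/
  lo : ℝ × ℝ
  /-- upper end -/
  hi : ℝ × ℝ
  /-- first coordinate as a function of the height -/
  F : ℝ → ℝ
  lt : lo.2 < hi.2
  cont : Continuous F
  below : ∀ y, y ≤ lo.2 → F y = lo.1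
  above : ∀ y, hi.2 ≤ y → F y = hi.1

/-- The curves have no common point. -/
def Disj (e f : MCurve) : Prop :=
  ∀ y, e.lo.2 ≤ y → y ≤ e.hi.2 → f.lo.2 ≤ y → y ≤ f.hi.2 → e.F y ≠ f.F y

/-- The point is not on the curve. -/
def Off (e : MCurve) (p : ℝ × ℝ) : Prop := e.lo.2 ≤ p.2 → p.2 ≤ e.hi.2 → e.F p.2 ≠ p.1

open Classical in
/-- The indicator of a proposition modulo two. -/
noncomputable def ind (P : Prop) : ZMod 2 := if P then 1 else 0

/-- `p` is to the right of the curve `e` (extended by a downward ray from its lower end and an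
upward ray from its upper end; points of the upward ray count as right). -/
noncomputable def side (e : MCurve) (p : ℝ × ℝ) : ZMod 2 :=
  ind (e.F p.2 < p.1 ∨ (e.F p.2 = p.1 ∧ e.hi.2 < p.2))

/-- lexicographic comparison -/
noncomputable def lex (p q : ℝ × ℝ) : ZMod 2 := ind (p.1 < q.1 ∨ (p.1 = q.1 ∧ p.2 < q.2))

theorem ind_congr {P Q : Prop} (h : P ↔ Q) : ind P = ind Q := by
  unfold ind
  by_cases hP : P
  · rw [if_pos hP, if_pos (h.1 hP)]
  · rw [if_neg hP, if_neg (fun hQ => hP (h.2 hQ))]

theorem ind_not (P : Prop) : ind (¬ P) = 1 + ind P := by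
  unfold ind
  by_cases hP : P
  · rw [if_neg (not_not.2 hP), if_pos hP]; decide
  · rw [if_pos hP, if_neg hP]; decide

theorem ind_eq_add {P Q : Prop} (h : P ↔ ¬ Q) : ind P = 1 + ind Q := by
  rw [ind_congr h, ind_not]

theorem lex_add {p q : ℝ × ℝ} (h : p ≠ q) : lex p q + lex q p = 1 := by
  have : lex p q = 1 + lex q p := by
    apply ind_eq_add
    constructor
    · rintro (h1 | ⟨h1, h2⟩) (h3 | ⟨h3, h4⟩)
      · linarith
      · linarith
      · linarith
      · linarith
    · intro hn
      rcases lt_trichotomy p.1 q.1 with h1 | h1 | h1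
      · exact Or.inl h1
      · rcases lt_trichotomy p.2 q.2 with h2 | h2 | h2
        · exact Or.inr ⟨h1, h2⟩
        · exact absurd (Prod.ext h1 h2) h
        · exact absurd (Or.inr ⟨h1.symm, h2⟩) hn
      · exact absurd (Or.inl h1) hn
  rw [this]
  have h2 : lex q p + lex q p = 0 := CharTwo.add_self_eq_zero _
  rw [add_assoc, h2, add_zero]

/-- Two continuous functions that are different on an interval keep their order. -/
theorem order_const {F G : ℝ → ℝ} (hF : Continuous F) (hG : Continuous G) {a b : ℝ} (hab : a ≤ b)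
    (h : ∀ y, a ≤ y → y ≤ b → F y ≠ G y) : (F a < G a ↔ F b < G b) := by
  have key : ∀ {F G : ℝ → ℝ}, Continuous F → Continuous G →
      (∀ y, a ≤ y → y ≤ b → F y ≠ G y) → F a < G a → F b < G b := by
    intro F G hF hG h h1
    by_contra h2
    have h3 : G b < F b := lt_of_le_of_ne (not_lt.1 h2) (fun h' => h b hab le_rfl h'.symm)
    have hc : ContinuousOn (fun y => F y - G y) (Set.Icc a b) := (hF.sub hG).continuousOn
    have := intermediate_value_Icc hab hc
    have h0 : (0 : ℝ) ∈ Set.Icc (F a - G a) (F b - G b) := ⟨by linarith, by linarith⟩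
    obtain ⟨y, hy, hy0⟩ := this h0
    exact h y hy.1 hy.2 (by simpa [sub_eq_zero] using hy0)
  constructor
  · exact key hF hG h
  · intro h1
    by_contra h2
    have h3 : G a < F a := lt_of_le_of_ne (not_lt.1 h2) (fun h' => h a le_rfl hab h'.symm)
    have := key hG hF (fun y h1 h2 h3 => h y h1 h2 h3.symm) h3
    linarith

theorem side_of_mem (e : MCurve) (p : ℝ × ℝ) (h : p.2 ≤ e.hi.2) :
    side e p = ind (e.F p.2 < p.1) := by
  apply ind_congr
  constructor
  · rintro (h1 | ⟨_, h2⟩)
    · exact h1
    · linarith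
  · exact Or.inl

theorem side_below (e : MCurve) (p : ℝ × ℝ) (h : p.2 ≤ e.lo.2) :
    side e p = ind (e.lo.1 < p.1) := by
  rw [side_of_mem e p (h.trans e.lt.le), e.below _ h]

theorem side_above (e : MCurve) (p : ℝ × ℝ) (h : e.hi.2 < p.2) :
    side e p = ind (e.hi.1 ≤ p.1) := by
  apply ind_congr
  rw [e.above _ h.le]
  constructor
  · rintro (h1 | ⟨h1, _⟩)
    · exact h1.le
    · exact h1.le
  · intro h1
    rcases h1.lt_or_eq with h2 | h2
    · exact Or.inl h2
    · exact Or.inr ⟨h2, h⟩

/-- lower part of the identity for two disjoint curves -/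
theorem low_part {e f : MCurve} (hd : Disj e f)
    (h1 : e.lo.2 ≤ f.hi.2) (h2 : f.lo.2 ≤ e.hi.2) :
    side e f.lo + side f e.lo =
      ind (e.F (max e.lo.2 f.lo.2) < f.F (max e.lo.2 f.lo.2)) + lex f.lo e.lo := by
  rcases le_or_gt e.lo.2 f.lo.2 with h | h
  · rw [max_eq_right h, side_of_mem e f.lo h2, side_below f e.lo h, f.below _ le_rfl]
    congr 1
    apply ind_congr
    constructor
    · exact Or.inl
    · rintro (h3 | ⟨h3, h4⟩)
      · exact h3
      · linarith
  · rw [max_eq_left h.le, side_below e f.lo h.le, side_of_mem f e.lo h1, e.below _ le_rfl]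
    have hne' : f.F e.lo.2 ≠ e.lo.1 := by
      have := hd e.lo.2 le_rfl e.lt.le h.le h1
      rw [e.below _ le_rfl] at this
      exact this.symm
    have e1 : ind (f.F e.lo.2 < e.lo.1) = 1 + ind (e.lo.1 < f.F e.lo.2) := by
      apply ind_eq_add
      constructor
      · intro h3 h4; linarith
      · intro h3
        exact lt_of_le_of_ne (not_lt.1 h3) hne'
    have e2 : lex f.lo e.lo = 1 + ind (e.lo.1 < f.lo.1) := by
      apply ind_eq_add
      constructor
      · rintro (h3 | ⟨h3, _⟩) h4
        · linarith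
        · linarith
      · intro h3
        rcases (not_lt.1 h3).lt_or_eq with h4 | h4
        · exact Or.inl h4
        · exact Or.inr ⟨h4, h⟩
    rw [e1, e2]
    ring

/-- upper part of the identity for two disjoint curves -/
theorem high_part {e f : MCurve} (hd : Disj e f)
    (h2 : f.lo.2 ≤ e.hi.2) :
    side e f.hi + side f e.hi =
      ind (e.F (min e.hi.2 f.hi.2) < f.F (min e.hi.2 f.hi.2)) + lex f.hi e.hi := by
  rcases lt_trichotomy e.hi.2 f.hi.2 with h | h | h
  · rw [min_eq_left h.le, side_above e f.hi h, side_of_mem f e.hi h.le, e.above _ le_rfl]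
    have hne' : f.F e.hi.2 ≠ e.hi.1 := by
      have := hd e.hi.2 e.lt.le le_rfl h2 h.le
      rw [e.above _ le_rfl] at this
      exact this.symm
    have e1 : ind (f.F e.hi.2 < e.hi.1) = 1 + ind (e.hi.1 < f.F e.hi.2) := by
      apply ind_eq_add
      constructor
      · intro h3 h4; linarith
      · intro h3
        exact lt_of_le_of_ne (not_lt.1 h3) hne'
    have e2 : lex f.hi e.hi = 1 + ind (e.hi.1 ≤ f.hi.1) := by
      apply ind_eq_add
      constructor
      · rintro (h3 | ⟨_, h4⟩) h5
        · linarith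
        · linarith
      · intro h3
        exact Or.inl (not_le.1 h3)
    rw [e1, e2]
    ring
  · rw [min_eq_right h.ge, side_of_mem e f.hi h.ge, side_of_mem f e.hi h.le, h,
      f.above _ le_rfl]
    congr 1
    apply ind_congr
    constructor
    · exact Or.inl
    · rintro (h3 | ⟨_, h4⟩)
      · exact h3
      · linarith
  · rw [min_eq_right h.le, side_of_mem e f.hi h.le, side_above f e.hi h, f.above _ le_rfl]
    congr 1
    apply ind_congr
    constructor
    · intro h3
      rcases h3.lt_or_eq with h4 | h4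
      · exact Or.inl h4
      · exact Or.inr ⟨h4, h⟩
    · rintro (h3 | ⟨h3, _⟩)
      · exact h3.le
      · exact h3.le

/-- the curves do not overlap in height -/
theorem apart_part {e f : MCurve} (h : e.hi.2 < f.lo.2) :
    side e f.lo + side e f.hi + side f e.lo + side f e.hi = lex f.lo e.lo + lex f.hi e.hi := by
  have he := e.lt
  have hf := f.lt
  rw [side_above e f.lo h, side_above e f.hi (by linarith), side_below f e.lo (by linarith),
    side_below f e.hi h.le]
  have e1 : ind (f.lo.1 < e.hi.1) = 1 + ind (e.hi.1 ≤ f.lo.1) := by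
    apply ind_eq_add
    exact not_le.symm
  have e2 : lex f.hi e.hi = 1 + ind (e.hi.1 ≤ f.hi.1) := by
    apply ind_eq_add
    constructor
    · rintro (h3 | ⟨_, h4⟩) h5
      · linarith
      · linarith
    · intro h3
      exact Or.inl (not_le.1 h3)
  have e3 : lex f.lo e.lo = ind (f.lo.1 < e.lo.1) := by
    apply ind_congr
    constructor
    · rintro (h3 | ⟨_, h4⟩)
      · exact h3
      · linarith
    · exact Or.inl
  rw [e1, e2, e3]
  have : ind (e.hi.1 ≤ f.lo.1) + ind (e.hi.1 ≤ f.lo.1) = 0 := CharTwo.add_self_eq_zero _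
  linear_combination this

/-- The parity identity for two disjoint curves. -/
theorem disj_identity {e f : MCurve} (hd : Disj e f) (hlo : e.lo ≠ f.lo) (hhi : e.hi ≠ f.hi) :
    side e f.lo + side e f.hi + side f e.lo + side f e.hi = lex f.lo e.lo + lex f.hi e.hi := by
  rcases lt_or_ge e.hi.2 f.lo.2 with h1 | h1
  · exact apart_part h1
  rcases lt_or_ge f.hi.2 e.lo.2 with h2 | h2
  · have := apart_part h2
    have a1 := lex_add hlo
    have a2 := lex_add hhi
    have b1 : lex e.lo f.lo = 1 + lex f.lo e.lo := by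
      have : lex f.lo e.lo + lex f.lo e.lo = 0 := CharTwo.add_self_eq_zero _
      linear_combination a1 - this
    have b2 : lex e.hi f.hi = 1 + lex f.hi e.hi := by
      have : lex f.hi e.hi + lex f.hi e.hi = 0 := CharTwo.add_self_eq_zero _
      linear_combination a2 - this
    rw [b1, b2] at this
    have h11 : (1 : ZMod 2) + 1 = 0 := by decide
    linear_combination this + h11
  have hl := low_part hd h2 h1
  have hh := high_part hd h1
  have hle : max e.lo.2 f.lo.2 ≤ min e.hi.2 f.hi.2 :=
    max_le (le_min e.lt.le h2) (le_min h1 f.lt.le)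
  have hc : ind (e.F (max e.lo.2 f.lo.2) < f.F (max e.lo.2 f.lo.2)) =
      ind (e.F (min e.hi.2 f.hi.2) < f.F (min e.hi.2 f.hi.2)) := by
    apply ind_congr
    apply order_const e.cont f.cont hle
    intro y hy1 hy2
    exact hd y ((le_max_left _ _).trans hy1) (hy2.trans (min_le_left _ _))
      ((le_max_right _ _).trans hy1) (hy2.trans (min_le_right _ _))
  rw [hc] at hl
  have h2 : ind (e.F (min e.hi.2 f.hi.2) < f.F (min e.hi.2 f.hi.2)) +
      ind (e.F (min e.hi.2 f.hi.2) < f.F (min e.hi.2 f.hi.2)) = 0 :=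
    CharTwo.add_self_eq_zero _
  linear_combination hl + hh + h2

/-- Change of the side along a monotone path. -/
theorem side_change (e : MCurve) (g : ℝ → ℝ) (hg : Continuous g) {y0 y1 : ℝ} (h01 : y0 ≤ y1)
    (hoff : ∀ y, y0 ≤ y → y ≤ y1 → Off e (g y, y)) :
    side e (g y1, y1) + side e (g y0, y0) =
      (ind (e.lo.1 < g (min y1 e.lo.2)) + ind (e.lo.1 < g (min y0 e.lo.2))) +
      (ind (e.hi.1 ≤ g (max y1 e.hi.2)) + ind (e.hi.1 ≤ g (max y0 e.hi.2))) := by
  have hlt := e.lt
  have two : ∀ z : ZMod 2, z + z = 0 := fun z => CharTwo.add_self_eq_zero z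
  -- order constant on subintervals
  have oc : ∀ a b, y0 ≤ a → b ≤ y1 → e.lo.2 ≤ a → b ≤ e.hi.2 → a ≤ b →
      ind (e.F a < g a) = ind (e.F b < g b) := by
    intro a b h1 h2 h3 h4 h5
    apply ind_congr
    apply order_const e.cont hg h5
    intro y hy1 hy2
    exact hoff y (h1.trans hy1) (hy2.trans h2) (h3.trans hy1) (hy2.trans h4)
  have hhi : y0 ≤ e.hi.2 → e.hi.2 ≤ y1 → ind (e.hi.1 ≤ g e.hi.2) =
      ind (e.F e.hi.2 < g e.hi.2) := by
    intro h1 h2
    apply ind_congr
    have := hoff e.hi.2 h1 h2 hlt.le le_rfl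
    simp only at this
    rw [e.above _ le_rfl] at this ⊢
    exact ⟨fun h => lt_of_le_of_ne h this, le_of_lt⟩
  rcases le_or_gt y1 e.lo.2 with a1 | a1
  · -- both below
    have a0 : y0 ≤ e.lo.2 := h01.trans a1
    rw [side_below e (g y1, y1) a1, side_below e (g y0, y0) a0, min_eq_left a1, min_eq_left a0,
      max_eq_right (a1.trans hlt.le), max_eq_right (a0.trans hlt.le)]
    simp only [two, add_zero]
  rcases lt_or_ge e.hi.2 y0 with b0 | b0
  · have b1 : e.hi.2 < y1 := lt_of_lt_of_le b0 h01
    rw [side_above e (g y1, y1) b1, side_above e (g y0, y0) b0, max_eq_left b1.le,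
      max_eq_left b0.le, min_eq_right (hlt.le.trans b1.le), min_eq_right (hlt.le.trans b0.le)]
    simp only [two, zero_add]
  rcases le_or_gt y0 e.lo.2 with a0 | a0
  · rw [side_below e (g y0, y0) a0, min_eq_right a1.le, min_eq_left a0, max_eq_right b0]
    simp only
    rcases le_or_gt y1 e.hi.2 with b1 | b1
    · rw [side_of_mem e (g y1, y1) b1, max_eq_right b1]
      simp only [two, add_zero]
      have := oc e.lo.2 y1 a0 le_rfl le_rfl b1 a1.le
      rw [e.below _ le_rfl] at this
      rw [this]
    · rw [side_above e (g y1, y1) b1, max_eq_left b1.le]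
      simp only
      have h1 := oc e.lo.2 e.hi.2 a0 b1.le le_rfl le_rfl hlt.le
      rw [e.below _ le_rfl] at h1
      rw [hhi b0 b1.le, h1]
      linear_combination - two (ind (e.F e.hi.2 < g e.hi.2))
  · rw [side_of_mem e (g y0, y0) b0, min_eq_right a0.le, min_eq_right a1.le, max_eq_right b0]
    simp only
    rcases le_or_gt y1 e.hi.2 with b1 | b1
    · rw [side_of_mem e (g y1, y1) b1, max_eq_right b1]
      simp only [two, add_zero]
      rw [oc y0 y1 le_rfl le_rfl a0.le b1 h01]
      exact two _
    · rw [side_above e (g y1, y1) b1, max_eq_left b1.le]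
      simp only
      have h1 := oc y0 e.hi.2 le_rfl b1.le a0.le le_rfl b0
      rw [hhi b0 b1.le, h1, two, zero_add]

end Pool.Agent.N371.UD
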