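import Pool.Agent.N371.UD.Curve

/-!
Parity of the position of a point with respect to a closed curve made of four monotone curves.
-/

set_option autoImplicit false

namespace Pool.Agent.N371.UD

theorem two0 (z : ZMod 2) : z + z = 0 := CharTwo.add_self_eq_zero z

theorem Disj.symm {e f : MCurve} (h : Disj e f) : Disj f e :=
  fun y h1 h2 h3 h4 h5 => h y h3 h4 h1 h2 h5.symm

theorem off_of_disj {e f : MCurve} (hd : Disj e f) {y : ℝ} (h1 : f.lo.2 ≤ y) (h2 : y ≤ f.hi.2) :
    Off e (f.F y, y) := fun a b => hd y a b h1 h2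

/-- the four curves form a closed curve with two lower and two upper corners -/
structure Closed4 (ca cb da db : MCurve) : Prop where
  c : ca.lo = cb.lo
  d : da.lo = db.lo
  a : ca.hi = da.hi
  b : cb.hi = db.hi

/-- parity of the position of `p` with respect to the closed curve -/
noncomputable def par (ca cb da db : MCurve) (p : ℝ × ℝ) : ZMod 2 :=
  side ca p + side cb p + side da p + side db p

theorem par_const {ca cb da db : MCurve} (hC : Closed4 ca cb da db) (g : ℝ → ℝ)
    (hg : Continuous g) {y0 y1 : ℝ} (h01 : y0 ≤ y1)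
    (h1 : ∀ y, y0 ≤ y → y ≤ y1 → Off ca (g y, y)) (h2 : ∀ y, y0 ≤ y → y ≤ y1 → Off cb (g y, y))
    (h3 : ∀ y, y0 ≤ y → y ≤ y1 → Off da (g y, y)) (h4 : ∀ y, y0 ≤ y → y ≤ y1 → Off db (g y, y)) :
    par ca cb da db (g y1, y1) = par ca cb da db (g y0, y0) := by
  have e1 := side_change ca g hg h01 h1
  have e2 := side_change cb g hg h01 h2
  have e3 := side_change da g hg h01 h3
  have e4 := side_change db g hg h01 h4
  rw [← hC.c] at e2
  rw [← hC.a] at e3
  rw [← hC.d, ← hC.b] at e4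
  unfold par
  have k1 := two0 (ind (ca.lo.1 < g (min y1 ca.lo.2)) + ind (ca.lo.1 < g (min y0 ca.lo.2)))
  have k2 := two0 (ind (da.lo.1 < g (min y1 da.lo.2)) + ind (da.lo.1 < g (min y0 da.lo.2)))
  have k3 := two0 (ind (ca.hi.1 ≤ g (max y1 ca.hi.2)) + ind (ca.hi.1 ≤ g (max y0 ca.hi.2)))
  have k4 := two0 (ind (cb.hi.1 ≤ g (max y1 cb.hi.2)) + ind (cb.hi.1 ≤ g (max y0 cb.hi.2)))
  have k5 := two0 (side ca (g y0, y0) + side cb (g y0, y0) + side da (g y0, y0) +
    side db (g y0, y0))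
  linear_combination e1 + e2 + e3 + e4 + k1 + k2 + k3 + k4 - k5

/-- the parity is constant along a curve disjoint from the closed curve -/
theorem par_const_curve {ca cb da db : MCurve} (hC : Closed4 ca cb da db) (f : MCurve)
    (h1 : Disj ca f) (h2 : Disj cb f) (h3 : Disj da f) (h4 : Disj db f) {y0 y1 : ℝ}
    (a0 : f.lo.2 ≤ y0) (b0 : y0 ≤ f.hi.2) (a1 : f.lo.2 ≤ y1) (b1 : y1 ≤ f.hi.2) :
    par ca cb da db (f.F y1, y1) = par ca cb da db (f.F y0, y0) := by
  rcases le_total y0 y1 with h | h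
  · exact par_const hC f.F f.cont h
      (fun y p q => off_of_disj h1 (a0.trans p) (q.trans b1))
      (fun y p q => off_of_disj h2 (a0.trans p) (q.trans b1))
      (fun y p q => off_of_disj h3 (a0.trans p) (q.trans b1))
      (fun y p q => off_of_disj h4 (a0.trans p) (q.trans b1))
  · exact (par_const hC f.F f.cont h
      (fun y p q => off_of_disj h1 (a1.trans p) (q.trans b0))
      (fun y p q => off_of_disj h2 (a1.trans p) (q.trans b0))
      (fun y p q => off_of_disj h3 (a1.trans p) (q.trans b0))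
      (fun y p q => off_of_disj h4 (a1.trans p) (q.trans b0))).symm

theorem F_lo (f : MCurve) : (f.F f.lo.2, f.lo.2) = f.lo := by
  rw [f.below _ le_rfl]

theorem F_hi (f : MCurve) : (f.F f.hi.2, f.hi.2) = f.hi := by
  rw [f.above _ le_rfl]

theorem par_ends {ca cb da db : MCurve} (hC : Closed4 ca cb da db) (f : MCurve)
    (h1 : Disj ca f) (h2 : Disj cb f) (h3 : Disj da f) (h4 : Disj db f) :
    par ca cb da db f.hi = par ca cb da db f.lo := by
  have := par_const_curve hC f h1 h2 h3 h4 le_rfl f.lt.le f.lt.le le_rfl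
  rwa [F_lo, F_hi] at this

/-- A plane drawing of `K_{2,3}`: exactly one of the three paths is enclosed by the two others
(parity version). -/
theorem theta {ca cb da db ea eb : MCurve} (hc : ca.lo = cb.lo) (hd : da.lo = db.lo)
    (he : ea.lo = eb.lo) (ha1 : ca.hi = da.hi) (ha2 : ca.hi = ea.hi) (hb1 : cb.hi = db.hi)
    (hb2 : cb.hi = eb.hi) (hab : ca.hi ≠ cb.hi) (hcd : ca.lo ≠ da.lo) (hce : ca.lo ≠ ea.lo)
    (hde : da.lo ≠ ea.lo) (d1 : Disj ca db) (d2 : Disj ca eb) (d3 : Disj da cb)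
    (d4 : Disj da eb) (d5 : Disj ea cb) (d6 : Disj ea db) :
    par ca cb da db ea.lo + par ca cb ea eb da.lo + par da db ea eb ca.lo = 1 := by
  have i1 := disj_identity d1 (by rw [← hd]; exact hcd) (by rw [← hb1]; exact hab)
  have i2 := disj_identity d2 (by rw [← he]; exact hce) (by rw [← hb2]; exact hab)
  have i3 := disj_identity d3 (by rw [← hc]; exact hcd.symm) (by rw [← ha1]; exact hab)
  have i4 := disj_identity d4 (by rw [← he]; exact hde) (by rw [← ha1, ← hb2]; exact hab)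
  have i5 := disj_identity d5 (by rw [← hc]; exact hce.symm) (by rw [← ha2]; exact hab)
  have i6 := disj_identity d6 (by rw [← hd]; exact hde.symm) (by rw [← ha2, ← hb1]; exact hab)
  rw [← hd, ← hb1] at i1
  rw [← he, ← hb2] at i2
  rw [← hc, ← ha1] at i3
  rw [← he, ← hb2, ← ha1] at i4
  rw [← hc, ← ha2] at i5
  rw [← hd, ← hb1, ← ha2] at i6
  have l1 := lex_add hcd
  have l2 := lex_add hce
  have l3 := lex_add hde
  unfold par
  have k1 := two0 (side ca cb.hi)
  have k2 := two0 (side da cb.hi)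
  have k3 := two0 (side ea cb.hi)
  have k4 := two0 (side cb ca.hi)
  have k5 := two0 (side db ca.hi)
  have k6 := two0 (side eb ca.hi)
  have k7 := two0 (lex cb.hi ca.hi)
  have k8 : (1 : ZMod 2) + 1 = 0 := by decide
  linear_combination i1 + i2 + i3 + i4 + i5 + i6 - k1 - k2 - k3 - k4 - k5 - k6 + 3 * k7 + l1 + l2
    + l3 + k8

/-- Separation: in a plane drawing, the closed curve through `c, a, d, b` separates a common upper
neighbour `g` of `c, d` from a common lower neighbour `e` of `a, b`. -/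
theorem separation {ca cb da db ea eb cg dg : MCurve} (hC : Closed4 ca cb da db)
    (he : ea.lo = eb.lo) (hea : ca.hi = ea.hi) (heb : cb.hi = eb.hi)
    (hgc : cg.lo = ca.lo) (hgd : dg.lo = da.lo) (hg : cg.hi = dg.hi)
    (hab : ca.hi ≠ cb.hi) (hcd : ca.lo ≠ da.lo) (hce : ca.lo ≠ ea.lo)
    (hde : da.lo ≠ ea.lo)
    (d1 : Disj ca db) (d2 : Disj ca eb) (d3 : Disj da cb)
    (d4 : Disj da eb) (d5 : Disj ea cb) (d6 : Disj ea db)
    (c1 : Disj ca dg) (c2 : Disj cb dg) (c3 : Disj ea dg) (c4 : Disj eb dg)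
    (c5 : Disj da cg) (c6 : Disj db cg) (c7 : Disj ea cg) (c8 : Disj eb cg) :
    par ca cb da db cg.hi + par ca cb da db ea.lo = 1 := by
  have ht := theta hC.c hC.d he hC.a hea hC.b heb hab hcd hce hde d1 d2 d3 d4 d5 d6
  have hC1 : Closed4 ca cb ea eb := ⟨hC.c, he, hea, heb⟩
  have hC2 : Closed4 da db ea eb := ⟨hC.d, he, hC.a.symm.trans hea, hC.b.symm.trans heb⟩
  have e1 := par_ends hC1 dg c1 c2 c3 c4
  have e2 := par_ends hC2 cg c5 c6 c7 c8
  rw [hgd, ← hg] at e1
  rw [hgc] at e2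
  have e3 : par ca cb da db cg.hi = par ca cb ea eb cg.hi + par da db ea eb cg.hi := by
    unfold par
    have k1 := two0 (side ea cg.hi)
    have k2 := two0 (side eb cg.hi)
    linear_combination - k1 - k2
  rw [e3, e1, e2]
  linear_combination ht

/-- An enclosed point is strictly to the right of a point of the closed curve at the same
height, and strictly below an upper corner. -/
theorem par_ne_zero {ca cb da db : MCurve} (hC : Closed4 ca cb da db) {p : ℝ × ℝ}
    (h : par ca cb da db p ≠ 0) :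
    ∃ f, (f = ca ∨ f = cb ∨ f = da ∨ f = db) ∧ f.lo.2 ≤ p.2 ∧ p.2 < f.hi.2 ∧ f.F p.2 < p.1 := by
  -- split the side into the part within the range of heights and the rays
  have hs : ∀ e : MCurve, side e p = ind (e.lo.2 ≤ p.2 ∧ p.2 < e.hi.2 ∧ e.F p.2 < p.1) +
      ind (p.2 < e.lo.2 ∧ e.lo.1 < p.1) +
      ind (e.hi.2 ≤ p.2 ∧ (e.hi.1 < p.1 ∨ (e.hi.1 = p.1 ∧ e.hi.2 < p.2))) := by
    intro e
    have hlt := e.lt
    unfold side ind
    rcases lt_or_ge p.2 e.lo.2 with h1 | h1
    · rw [e.below _ h1.le]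
      by_cases h2 : e.lo.1 < p.1
      · rw [if_pos (Or.inl h2), if_neg (fun h => absurd h.1 (not_le.2 h1)), if_pos ⟨h1, h2⟩,
          if_neg (fun h => by linarith [h.1])]
        decide
      · rw [if_neg, if_neg (fun h => absurd h.1 (not_le.2 h1)), if_neg (fun h => h2 h.2),
          if_neg (fun h => by linarith [h.1])]
        · decide
        · rintro (h3 | ⟨_, h3⟩)
          · exact h2 h3
          · linarith
    rcases lt_or_ge p.2 e.hi.2 with h3 | h3
    · by_cases h2 : e.F p.2 < p.1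
      · rw [if_pos (Or.inl h2), if_pos ⟨h1, h3, h2⟩, if_neg (fun h => by linarith [h.1]),
          if_neg (fun h => by linarith [h.1])]
        decide
      · rw [if_neg, if_neg (fun h => h2 h.2.2), if_neg (fun h => by linarith [h.1]),
          if_neg (fun h => by linarith [h.1])]
        · decide
        · rintro (h4 | ⟨_, h4⟩)
          · exact h2 h4
          · linarith
    · rw [e.above _ h3]
      by_cases h2 : e.hi.1 < p.1 ∨ (e.hi.1 = p.1 ∧ e.hi.2 < p.2)
      · rw [if_pos h2, if_neg (fun h => by linarith [h.2.1]), if_neg (fun h => by linarith [h.1]),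
          if_pos ⟨h3, h2⟩]
        decide
      · rw [if_neg h2, if_neg (fun h => by linarith [h.2.1]), if_neg (fun h => by linarith [h.1]),
          if_neg (fun h => h2 h.2)]
        decide
  by_contra hcon
  push Not at hcon
  apply h
  have hz : ∀ f, (f = ca ∨ f = cb ∨ f = da ∨ f = db) →
      ind (f.lo.2 ≤ p.2 ∧ p.2 < f.hi.2 ∧ f.F p.2 < p.1) = 0 := by
    intro f hf
    unfold ind
    rw [if_neg]
    rintro ⟨h1, h2, h3⟩
    exact absurd h3 (not_lt.2 (hcon f hf h1 h2))
  unfold par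
  rw [hs ca, hs cb, hs da, hs db, hz ca (Or.inl rfl), hz cb (Or.inr (Or.inl rfl)),
    hz da (Or.inr (Or.inr (Or.inl rfl))), hz db (Or.inr (Or.inr (Or.inr rfl))), ← hC.c, ← hC.d,
    ← hC.a, ← hC.b]
  have k1 := two0 (ind (p.2 < ca.lo.2 ∧ ca.lo.1 < p.1))
  have k2 := two0 (ind (p.2 < da.lo.2 ∧ da.lo.1 < p.1))
  have k3 := two0 (ind (ca.hi.2 ≤ p.2 ∧ (ca.hi.1 < p.1 ∨ (ca.hi.1 = p.1 ∧ ca.hi.2 < p.2))))
  have k4 := two0 (ind (cb.hi.2 ≤ p.2 ∧ (cb.hi.1 < p.1 ∨ (cb.hi.1 = p.1 ∧ cb.hi.2 < p.2))))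
  linear_combination k1 + k2 + k3 + k4

end Pool.Agent.N371.UD
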