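import Pool.Agent.N371.UD.Chain

/-!
Upward planar grid drawings of directed graphs, and the area functions of bipartite DAGs.
-/

set_option autoImplicit false

namespace Pool.Agent.N371.UD

/-- A poly-line upward planar grid drawing of the directed graph with vertex set `V` and edge
relation `E`: the vertices are distinct grid points, an edge `u → v` is a polygonal chain from the
point of `u` to the point of `v` whose vertices (the end points and the bends) are grid points with
strictly increasing heights, two different edges have no common point except the point of a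
common end vertex, and an edge does not pass through a vertex other than its ends. -/
structure Drawing {V : Type} (E : V → V → Prop) where
  /-- the point of a vertex -/
  pos : V → ℤ × ℤ
  /-- the end points and bends of an edge -/
  chain : V → V → List (ℤ × ℤ)
  inj : Function.Injective pos
  head : ∀ u v, E u v → (chain u v).head? = some (pos u)
  last : ∀ u v, E u v → (chain u v).getLast? = some (pos v)
  up : ∀ u v, E u v → Up (chain u v)
  planar : ∀ u v u' v', E u v → E u' v' → (u, v) ≠ (u', v') → ∀ z ∈ chainSet (chain u v),
    z ∈ chainSet (chain u' v') → ∃ w, z = toR (pos w) ∧ (w = u ∨ w = v) ∧ (w = u' ∨ w = v')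
  avoid : ∀ u v w, E u v → toR (pos w) ∈ chainSet (chain u v) → w = u ∨ w = v

/-- The drawing is straight-line: the edges have no bends. -/
def Drawing.Straight {V : Type} {E : V → V → Prop} (D : Drawing E) : Prop :=
  ∀ u v, E u v → D.chain u v = [D.pos u, D.pos v]

/-- `p` is a vertex or a bend of the drawing. -/
def Drawing.IsPoint {V : Type} {E : V → V → Prop} (D : Drawing E) (p : ℤ × ℤ) : Prop :=
  (∃ v, p = D.pos v) ∨ ∃ u v, E u v ∧ p ∈ D.chain u v

/-- The drawing lies in an axis-parallel rectangle of width `W` and height `H` with corners at grid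
points (as the drawing is a union of segments between its vertices and bends, it is enough that
these are in the rectangle; the smallest axis-parallel rectangle containing the drawing is of this
kind). -/
def Drawing.Fits {V : Type} {E : V → V → Prop} (D : Drawing E) (W H : ℕ) : Prop :=
  ∃ a b : ℤ, ∀ p, D.IsPoint p → a ≤ p.1 ∧ p.1 ≤ a + W ∧ b ≤ p.2 ∧ p.2 ≤ b + H

/-- Bipartite DAG: all edges are directed from a set `S` of vertices to its complement. -/
def BipartiteDAG {V : Type} (E : V → V → Prop) : Prop := ∃ S : Set V, ∀ u v, E u v → u ∈ S ∧ v ∉ S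

/-- the least area of a poly-line upward planar grid drawing -/
noncomputable def polyArea {V : Type} (E : V → V → Prop) : ℕ :=
  sInf {A | ∃ (D : Drawing E) (W H : ℕ), D.Fits W H ∧ A = W * H}

/-- the least area of a straight-line upward planar grid drawing -/
noncomputable def straightArea {V : Type} (E : V → V → Prop) : ℕ :=
  sInf {A | ∃ D : Drawing E, D.Straight ∧ ∃ W H : ℕ, D.Fits W H ∧ A = W * H}

/-- The largest value of `polyArea` over the bipartite DAGs with `n` vertices that have an upward
planar drawing. -/
noncomputable def Ap (n : ℕ) : ℕ :=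
  sSup {A | ∃ E : Fin n → Fin n → Prop, BipartiteDAG E ∧ Nonempty (Drawing E) ∧ A = polyArea E}

/-- The largest value of `straightArea` over the bipartite DAGs with `n` vertices that have an
upward planar straight-line drawing. -/
noncomputable def As (n : ℕ) : ℕ :=
  sSup {A | ∃ E : Fin n → Fin n → Prop, BipartiteDAG E ∧ (∃ D : Drawing E, D.Straight) ∧
    A = straightArea E}

section
variable {V : Type} {E : V → V → Prop} (D : Drawing E)

theorem Drawing.ne_of_edge {u v : V} (h : E u v) : D.pos u ≠ D.pos v ∨ u = v := by
  by_cases huv : u = v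
  · exact Or.inr huv
  · exact Or.inl (fun he => huv (D.inj he))

/-- the monotone curve of an edge -/
noncomputable def Drawing.cv {u v : V} (h : E u v) (hne : u ≠ v) : MCurve :=
  curveOf (D.chain u v) (D.pos u) (D.pos v) (D.up u v h) (D.head u v h) (D.last u v h)
    (fun he => hne (D.inj he))

@[simp] theorem Drawing.cv_lo {u v : V} (h : E u v) (hne : u ≠ v) :
    (D.cv h hne).lo = toR (D.pos u) := rfl

@[simp] theorem Drawing.cv_hi {u v : V} (h : E u v) (hne : u ≠ v) :
    (D.cv h hne).hi = toR (D.pos v) := rfl

theorem Drawing.cv_mem {u v : V} (h : E u v) (hne : u ≠ v) {y : ℝ}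
    (h1 : (D.cv h hne).lo.2 ≤ y) (h2 : y ≤ (D.cv h hne).hi.2) :
    ((D.cv h hne).F y, y) ∈ chainSet (D.chain u v) :=
  ev_in (D.up u v h) (D.head u v h) (D.last u v h) (fun he => hne (D.inj he)) y h1 h2

theorem Drawing.disj {u v u' v' : V} (h : E u v) (hne : u ≠ v) (h' : E u' v') (hne' : u' ≠ v')
    (h1 : u ≠ u') (h2 : u ≠ v') (h3 : v ≠ u') (h4 : v ≠ v') :
    Disj (D.cv h hne) (D.cv h' hne') := by
  intro y a b c d he
  have m1 := D.cv_mem h hne a b
  have m2 := D.cv_mem h' hne' c d
  rw [← he] at m2
  obtain ⟨w, -, hw1, hw2⟩ := D.planar u v u' v' h h' (fun hh => h1 (Prod.ext_iff.1 hh).1) _ m1 m2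
  rcases hw1 with rfl | rfl <;> rcases hw2 with rfl | rfl
  · exact h1 rfl
  · exact h2 rfl
  · exact h3 rfl
  · exact h4 rfl

theorem toR_inj {p q : ℤ × ℤ} (h : toR p = toR q) : p = q := by
  unfold toR at h
  have h1 : (p.1 : ℝ) = q.1 := congrArg Prod.fst h
  have h2 : (p.2 : ℝ) = q.2 := congrArg Prod.snd h
  exact Prod.ext (by exact_mod_cast h1) (by exact_mod_cast h2)

theorem Drawing.toR_ne {u v : V} (h : u ≠ v) : toR (D.pos u) ≠ toR (D.pos v) :=
  fun he => h (D.inj (toR_inj he))

end

end Pool.Agent.N371.UD
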