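import Pool.Agent.N371.UD.Lower

/-!
A straight-line upward planar drawing of the chain of pairs.
-/

set_option autoImplicit false

namespace Pool.Agent.N371.UD

/-- left or right, lower or upper -/
def sg (v : ℕ) : ℤ := if v % 2 = 0 then -1 else 1

/-- the index -/
def jj (v : ℕ) : ℤ := ((v / 4 + 1 : ℕ) : ℤ)

/-- the position of a vertex in the drawing -/
def ps (v : ℕ) : ℤ × ℤ := if (v / 2) % 2 = 0 then (sg v * jj v, -2 * jj v) else (0, sg v * jj v)

theorem sg_cases (v : ℕ) : sg v = -1 ∨ sg v = 1 := by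
  unfold sg; split_ifs <;> simp

theorem jj_pos (v : ℕ) : 1 ≤ jj v := by
  unfold jj; push_cast; omega

theorem eq_of {u v : ℕ} (h1 : (u / 2) % 2 = (v / 2) % 2) (h2 : sg u = sg v) (h3 : jj u = jj v) :
    u = v := by
  unfold sg at h2
  unfold jj at h3
  have h4 : u % 2 = v % 2 := by
    split_ifs at h2 with a b b <;> omega
  omega

theorem ps_src {u : ℕ} (h : (u / 2) % 2 = 0) : ps u = (sg u * jj u, -2 * jj u) := if_pos h

theorem ps_snk {u : ℕ} (h : (u / 2) % 2 = 1) : ps u = (0, sg u * jj u) := if_neg (by omega)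

theorem jj_adj {u v : ℕ} (h : Adj u v) : jj v = jj u ∨ jj v = jj u - 1 := by
  unfold Adj at h
  unfold jj
  omega

theorem ps_inj {u v : ℕ} (h : ps u = ps v) : u = v := by
  have hu := jj_pos u
  have hv := jj_pos v
  rcases Nat.mod_two_eq_zero_or_one (u / 2) with a | a <;>
  rcases Nat.mod_two_eq_zero_or_one (v / 2) with b | b
  · rw [ps_src a, ps_src b] at h
    have h1 : sg u * jj u = sg v * jj v := congrArg Prod.fst h
    have h2 : -2 * jj u = -2 * jj v := congrArg Prod.snd h
    have h3 : jj u = jj v := by omega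
    rw [h3] at h1
    exact eq_of (by omega) (mul_right_cancel₀ (by omega) h1) h3
  · rw [ps_src a, ps_snk b] at h
    have h1 : sg u * jj u = 0 := congrArg Prod.fst h
    rcases sg_cases u with c | c <;> rw [c] at h1 <;> omega
  · rw [ps_snk a, ps_src b] at h
    have h1 : 0 = sg v * jj v := congrArg Prod.fst h
    rcases sg_cases v with c | c <;> rw [c] at h1 <;> omega
  · rw [ps_snk a, ps_snk b] at h
    have h1 : sg u * jj u = sg v * jj v := congrArg Prod.snd h
    rcases sg_cases u with c | c <;> rcases sg_cases v with d | d <;> rw [c, d] at h1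
    · exact eq_of (by omega) (by rw [c, d]) (by omega)
    · omega
    · omega
    · exact eq_of (by omega) (by rw [c, d]) (by omega)

theorem infix_pair {a b p q : ℤ × ℤ} (h : [p, q] <:+: [a, b]) : p = a ∧ q = b := by
  have h1 := h.eq_of_length (by simp)
  simpa using h1

theorem chainSet_pair {a b : ℤ × ℤ} {z : ℝ × ℝ} (h : z ∈ chainSet [a, b]) :
    ∃ s : ℝ, 0 ≤ s ∧ s ≤ 1 ∧ z = (s * a.1 + (1 - s) * b.1, s * a.2 + (1 - s) * b.2) := by
  obtain ⟨p, q, hpq, s, t, hs, ht, hst, hz⟩ := h
  obtain ⟨rfl, rfl⟩ := infix_pair hpq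
  refine ⟨s, hs, by linarith, ?_⟩
  have ht' : t = 1 - s := by linarith
  rw [← hz, ht']
  ext <;> simp [toR]

/-- the arithmetic of two edges with a common point -/
theorem two_edges {s s' : ℝ} (hs : 0 ≤ s) (hs1 : s ≤ 1) (hs' : 0 ≤ s') (hs1' : s' ≤ 1)
    {σ τ σ' τ' j k j' k' : ℤ} (hσ : σ = -1 ∨ σ = 1) (hτ : τ = -1 ∨ τ = 1) (hσ' : σ' = -1 ∨ σ' = 1)
    (hτ' : τ' = -1 ∨ τ' = 1) (hj : 1 ≤ j) (hk : 1 ≤ k) (hj' : 1 ≤ j') (hk' : 1 ≤ k')
    (hjk : k = j ∨ k = j - 1) (hjk' : k' = j' ∨ k' = j' - 1)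
    (hx : s * (σ * j) = s' * (σ' * j'))
    (hy : s * (-2 * j) + (1 - s) * (τ * k) = s' * (-2 * j') + (1 - s') * (τ' * k')) :
    (s = 1 ∧ s' = 1 ∧ σ = σ' ∧ j = j') ∨ (s = 0 ∧ s' = 0 ∧ τ = τ' ∧ k = k') ∨
    (σ = σ' ∧ j = j' ∧ τ = τ' ∧ k = k') := by
  have hjr : (1 : ℝ) ≤ j := by exact_mod_cast hj
  have hkr : (1 : ℝ) ≤ k := by exact_mod_cast hk
  have hjr' : (1 : ℝ) ≤ j' := by exact_mod_cast hj'
  have hkr' : (1 : ℝ) ≤ k' := by exact_mod_cast hk'
  by_cases hs0 : s = 0
  · subst hs0
    have h1 : s' = 0 := by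
      have : s' * ((σ' : ℝ) * j') = 0 := by linarith
      rcases mul_eq_zero.1 this with h | h
      · exact h
      · exfalso
        rcases hσ' with rfl | rfl <;> push_cast at h <;> linarith
    subst h1
    right; left
    have h2 : (τ : ℝ) * k = τ' * k' := by linarith
    refine ⟨rfl, rfl, ?_⟩
    rcases hτ with rfl | rfl <;> rcases hτ' with rfl | rfl <;> push_cast at h2
    · exact ⟨rfl, by exact_mod_cast (by linarith : (k : ℝ) = k')⟩
    · exfalso; linarith
    · exfalso; linarith
    · exact ⟨rfl, by exact_mod_cast (by linarith : (k : ℝ) = k')⟩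
  have hs0' : 0 < s := lt_of_le_of_ne hs (Ne.symm hs0)
  have hsj : 0 < s * j := by positivity
  have hsj' : 0 ≤ s' * j' := by positivity
  have hσσ : σ = σ' ∧ s * j = s' * j' := by
    rcases hσ with rfl | rfl <;> rcases hσ' with rfl | rfl <;> push_cast at hx
    · exact ⟨rfl, by linarith⟩
    · exfalso; linarith
    · exfalso; linarith
    · exact ⟨rfl, by linarith⟩
  obtain ⟨rfl, hw⟩ := hσσ
  have hs0'' : 0 < s' := by
    rcases hs'.lt_or_eq with h | h
    · exact h
    · rw [← h] at hw; linarith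
  have hz : (1 - s) * (τ * k) = (1 - s') * (τ' * k') := by linarith
  -- conclusion if both parameters are one
  have fin : s = 1 → s' = 1 → (s = 1 ∧ s' = 1 ∧ σ = σ ∧ j = j') ∨ (s = 0 ∧ s' = 0 ∧ τ = τ' ∧ k = k') ∨
      (σ = σ ∧ j = j' ∧ τ = τ' ∧ k = k') := by
    intro h1 h2
    left
    rw [h1, h2] at hw
    exact ⟨h1, h2, rfl, by exact_mod_cast (by linarith : (j : ℝ) = j')⟩
  have hp : 0 ≤ (1 - s) * k := mul_nonneg (by linarith) (by linarith)
  have hp' : 0 ≤ (1 - s') * k' := mul_nonneg (by linarith) (by linarith)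
  have hττ : (τ = τ' ∧ (1 - s) * k = (1 - s') * k') ∨ (s = 1 ∧ s' = 1) := by
    have opp : (1 - s) * k = - ((1 - s') * k') → (s = 1 ∧ s' = 1) := by
      intro h
      have h1 : (1 - s) * k = 0 := by linarith
      have h2 : (1 - s') * k' = 0 := by linarith
      constructor
      · rcases mul_eq_zero.1 h1 with h3 | h3
        · linarith
        · linarith
      · rcases mul_eq_zero.1 h2 with h3 | h3
        · linarith
        · linarith
    rcases hτ with rfl | rfl <;> rcases hτ' with rfl | rfl <;> push_cast at hz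
    · left; exact ⟨rfl, by linarith⟩
    · right; exact opp (by linarith)
    · right; exact opp (by linarith)
    · left; exact ⟨rfl, by linarith⟩
  rcases hττ with ⟨rfl, hkk⟩ | ⟨h1, h2⟩
  swap
  · exact fin h1 h2
  rcases hjk with rfl | hjk <;> rcases hjk' with rfl | hjk'
  · have : (k : ℝ) = k' := by linarith
    have : k = k' := by exact_mod_cast this
    right; right; exact ⟨rfl, this, rfl, this⟩
  · -- k = j, k' = j' - 1
    rw [hjk'] at hkk
    push_cast at hkk
    have h1 : s' = k - j' + 1 := by linarith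
    have h2 : (j' : ℝ) - 1 < k := by linarith
    have h3 : (k : ℝ) ≤ j' := by linarith
    have h2' : j' - 1 < k := by exact_mod_cast h2
    have h3' : k ≤ j' := by exact_mod_cast h3
    have h4 : k = j' := by omega
    have h5 : s' = 1 := by rw [h1, h4]; ring
    have h6 : s = 1 := by
      rw [h5, h4] at hw
      have : (s - 1) * j' = 0 := by linarith
      rcases mul_eq_zero.1 this with h | h <;> linarith
    exact fin h6 h5
  · rw [hjk] at hkk
    push_cast at hkk
    have h1 : s = k' - j + 1 := by linarith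
    have h2 : (j : ℝ) - 1 < k' := by linarith
    have h3 : (k' : ℝ) ≤ j := by linarith
    have h2' : j - 1 < k' := by exact_mod_cast h2
    have h3' : k' ≤ j := by exact_mod_cast h3
    have h4 : k' = j := by omega
    have h5 : s = 1 := by rw [h1, h4]; ring
    have h6 : s' = 1 := by
      rw [h5, h4] at hw
      have : (s' - 1) * j = 0 := by linarith
      rcases mul_eq_zero.1 this with h | h <;> linarith
    exact fin h5 h6
  · rw [hjk, hjk'] at hkk
    push_cast at hkk
    have h1 : (j : ℝ) - j' = s' - s := by linarith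
    have h2 : (j : ℝ) - j' < 1 := by linarith
    have h3 : -1 < (j : ℝ) - j' := by linarith
    have h2' : j - j' < 1 := by exact_mod_cast h2
    have h3' : -1 < j - j' := by exact_mod_cast h3
    have h4 : j = j' := by omega
    right; right; exact ⟨rfl, h4, rfl, by omega⟩

/-- The straight-line drawing of the chain of pairs. -/
def draw (n : ℕ) : Drawing (GE n) where
  pos v := ps v.1
  chain u v := [ps u.1, ps v.1]
  inj u v h := Fin.ext (ps_inj h)
  head u v h := rfl
  last u v h := rfl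
  up u v h := by
    have h' : Adj u.1 v.1 := h
    have h1 := jj_adj h'
    have h2 := jj_pos u.1
    have h3 := jj_pos v.1
    have hlt : (ps u.1).2 < (ps v.1).2 := by
      rw [ps_src h'.1, ps_snk h'.2.1]
      simp only
      rcases sg_cases v.1 with c | c <;> rw [c] <;> omega
    exact List.pairwise_pair.2 hlt
  planar u v u' v' h h' hne z hz hz' := by
    have g : Adj u.1 v.1 := h
    have g' : Adj u'.1 v'.1 := h'
    obtain ⟨s, hs0, hs1, hs⟩ := chainSet_pair hz
    obtain ⟨t, ht0, ht1, ht⟩ := chainSet_pair hz'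
    rw [ps_src g.1, ps_snk g.2.1] at hs
    rw [ps_src g'.1, ps_snk g'.2.1] at ht
    have e1 : z.1 = s * ((sg u.1 : ℝ) * jj u.1) := by
      rw [hs]; push_cast; ring
    have e2 : z.1 = t * ((sg u'.1 : ℝ) * jj u'.1) := by
      rw [ht]; push_cast; ring
    have e3 : z.2 = s * (-2 * (jj u.1 : ℝ)) + (1 - s) * ((sg v.1 : ℝ) * jj v.1) := by
      rw [hs]; push_cast; ring
    have e4 : z.2 = t * (-2 * (jj u'.1 : ℝ)) + (1 - t) * ((sg v'.1 : ℝ) * jj v'.1) := by
      rw [ht]; push_cast; ring
    have key := two_edges hs0 hs1 ht0 ht1 (sg_cases u.1) (sg_cases v.1) (sg_cases u'.1)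
      (sg_cases v'.1) (jj_pos u.1) (jj_pos v.1) (jj_pos u'.1) (jj_pos v'.1) (jj_adj g) (jj_adj g')
      (e1.symm.trans e2) (e3.symm.trans e4)
    rcases key with ⟨a1, a2, a3, a4⟩ | ⟨a1, a2, a3, a4⟩ | ⟨a1, a2, a3, a4⟩
    · have huu : u = u' := Fin.ext (eq_of (by have := g.1; have := g'.1; omega) a3 a4)
      refine ⟨u, ?_, Or.inl rfl, Or.inl huu⟩
      rw [ps_src g.1]
      ext
      · rw [e1, a1]; simp [toR]
      · rw [e3, a1]; simp [toR]
    · have hvv : v = v' := Fin.ext (eq_of (by have := g.2.1; have := g'.2.1; omega) a3 a4)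
      refine ⟨v, ?_, Or.inr rfl, Or.inr hvv⟩
      rw [ps_snk g.2.1]
      ext
      · rw [e1, a1]; simp [toR]
      · rw [e3, a1]; simp [toR]
    · exfalso
      have huu : u = u' := Fin.ext (eq_of (by have := g.1; have := g'.1; omega) a1 a2)
      have hvv : v = v' := Fin.ext (eq_of (by have := g.2.1; have := g'.2.1; omega) a3 a4)
      exact hne (by rw [huu, hvv])
  avoid u v w h hw := by
    have g : Adj u.1 v.1 := h
    obtain ⟨s, hs0, hs1, hs⟩ := chainSet_pair hw
    rw [ps_src g.1, ps_snk g.2.1] at hs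
    have pu := jj_pos u.1
    have pv := jj_pos v.1
    have pw := jj_pos w.1
    have pur : (1 : ℝ) ≤ jj u.1 := by exact_mod_cast pu
    have pvr : (1 : ℝ) ≤ jj v.1 := by exact_mod_cast pv
    have pwr : (1 : ℝ) ≤ jj w.1 := by exact_mod_cast pw
    rcases Nat.mod_two_eq_zero_or_one (w.1 / 2) with b | b
    · left
      rw [ps_src b] at hs
      unfold toR at hs
      have e1 : (sg w.1 : ℝ) * jj w.1 = s * ((sg u.1 : ℝ) * jj u.1) := by
        have := congrArg Prod.fst hs
        push_cast at this; linarith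
      have e2 : -2 * (jj w.1 : ℝ) = s * (-2 * (jj u.1 : ℝ)) + (1 - s) * ((sg v.1 : ℝ) * jj v.1) := by
        have := congrArg Prod.snd hs
        push_cast at this; linarith
      have hnn : 0 ≤ s * (jj u.1 : ℝ) := mul_nonneg hs0 (by linarith)
      have e3 : sg w.1 = sg u.1 ∧ (jj w.1 : ℝ) = s * jj u.1 := by
        rcases sg_cases w.1 with c | c <;> rcases sg_cases u.1 with d | d <;>
          rw [c, d] at e1 <;> push_cast at e1
        · exact ⟨by rw [c, d], by linarith⟩
        · exfalso; linarith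
        · exfalso; linarith
        · exact ⟨by rw [c, d], by linarith⟩
      have e4 : (1 - s) * ((sg v.1 : ℝ) * jj v.1) = 0 := by linarith [e3.2]
      have e5 : s = 1 := by
        rcases mul_eq_zero.1 e4 with h1 | h1
        · linarith
        · exfalso
          rcases sg_cases v.1 with c | c <;> rw [c] at h1 <;> push_cast at h1 <;> linarith
      rw [e5, one_mul] at e3
      exact Fin.ext (eq_of (by have := g.1; omega) e3.1 (by exact_mod_cast e3.2))
    · right
      rw [ps_snk b] at hs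
      unfold toR at hs
      have e1 : (0 : ℝ) = s * ((sg u.1 : ℝ) * jj u.1) := by
        have := congrArg Prod.fst hs
        push_cast at this; linarith
      have e2 : (sg w.1 : ℝ) * jj w.1 = s * (-2 * (jj u.1 : ℝ)) + (1 - s) * ((sg v.1 : ℝ) * jj v.1) := by
        have := congrArg Prod.snd hs
        push_cast at this; linarith
      have e3 : s = 0 := by
        rcases mul_eq_zero.1 e1.symm with h1 | h1
        · exact h1
        · exfalso
          rcases sg_cases u.1 with c | c <;> rw [c] at h1 <;> push_cast at h1 <;> linarith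
      rw [e3] at e2
      have e4 : (sg w.1 : ℝ) * jj w.1 = (sg v.1 : ℝ) * jj v.1 := by linarith
      have e5 : sg w.1 = sg v.1 ∧ (jj w.1 : ℝ) = jj v.1 := by
        rcases sg_cases w.1 with c | c <;> rcases sg_cases v.1 with d | d <;>
          rw [c, d] at e4 <;> push_cast at e4
        · exact ⟨by rw [c, d], by linarith⟩
        · exfalso; linarith
        · exfalso; linarith
        · exact ⟨by rw [c, d], by linarith⟩
      exact Fin.ext (eq_of (by have := g.2.1; omega) e5.1 (by exact_mod_cast e5.2))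

theorem draw_straight (n : ℕ) : (draw n).Straight := fun _ _ _ => rfl

theorem bipartite_GE (n : ℕ) : BipartiteDAG (GE n) :=
  ⟨{u | (u.1 / 2) % 2 = 0}, fun u v h => ⟨h.1, fun h2 => by
    have h1 : (v.1 / 2) % 2 = 1 := h.2.1
    have h3 : (v.1 / 2) % 2 = 0 := h2
    omega⟩⟩

/-- a drawing of a finite graph fits into some rectangle -/
theorem exists_fits {n : ℕ} {E : Fin n → Fin n → Prop} (D : Drawing E) : ∃ W H : ℕ, D.Fits W H := by
  classical
  let S : Finset (ℤ × ℤ) := (Finset.univ.image D.pos) ∪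
    Finset.univ.biUnion (fun p : Fin n × Fin n => (D.chain p.1 p.2).toFinset)
  have hS : ∀ p, D.IsPoint p → p ∈ S := by
    rintro p (⟨v, rfl⟩ | ⟨u, v, -, hp⟩)
    · exact Finset.mem_union_left _ (Finset.mem_image_of_mem _ (Finset.mem_univ v))
    · exact Finset.mem_union_right _ (Finset.mem_biUnion.2 ⟨(u, v), Finset.mem_univ _,
        List.mem_toFinset.2 hp⟩)
  have hb : ∀ g : ℤ × ℤ → ℤ, ∃ B : ℕ, ∀ p ∈ S, -(B : ℤ) ≤ g p ∧ g p ≤ B := by
    intro g
    refine ⟨∑ p ∈ S, (g p).natAbs, fun p hp => ?_⟩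
    have : (g p).natAbs ≤ ∑ p ∈ S, (g p).natAbs := Finset.single_le_sum (f := fun p => (g p).natAbs)
      (fun _ _ => Nat.zero_le _) hp
    omega
  obtain ⟨B1, h1⟩ := hb Prod.fst
  obtain ⟨B2, h2⟩ := hb Prod.snd
  refine ⟨2 * B1, 2 * B2, -B1, -B2, fun p hp => ?_⟩
  have a1 := h1 p (hS p hp)
  have a2 := h2 p (hS p hp)
  push_cast
  omega

end Pool.Agent.N371.UD
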