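import Pool.Agent.N371.UD.Nest

/-!
Lower bound for the area of the drawings of the chain of pairs.
-/

set_option autoImplicit false

namespace Pool.Agent.N371.UD

theorem count_two (m W : ℕ) (a : ℤ) (f : ℕ → ℤ) (I : ℕ → Prop)
    (hf : ∀ i, 1 ≤ i → i ≤ m → a ≤ f i ∧ f i ≤ a + W)
    (h1 : ∀ i j, 1 ≤ i → i < j → j ≤ m → I j → f i ≠ f j)
    (h2 : ∀ i j, 1 ≤ i → i < j → j ≤ m → ¬ I i → f i ≠ f j) : m ≤ 2 * (W + 1) := by
  classical
  have key : ∀ S : Finset ℕ, S ⊆ Finset.Icc 1 m → (∀ i ∈ S, ∀ j ∈ S, i < j → f i ≠ f j) →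
      S.card ≤ W + 1 := by
    intro S hS hinj
    have hi : Set.InjOn f (S : Set ℕ) := by
      intro i hi j hj hij
      rcases lt_trichotomy i j with h | h | h
      · exact absurd hij (hinj i hi j hj h)
      · exact h
      · exact absurd hij.symm (hinj j hj i hi h)
    rw [← Finset.card_image_of_injOn hi]
    have hsub : S.image f ⊆ Finset.Icc a (a + W) := by
      intro x hx
      obtain ⟨i, hi, rfl⟩ := Finset.mem_image.1 hx
      have := Finset.mem_Icc.1 (hS hi)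
      exact Finset.mem_Icc.2 (hf i this.1 this.2)
    refine (Finset.card_le_card hsub).trans ?_
    rw [Int.card_Icc]
    omega
  have e := Finset.card_filter_add_card_filter_not (s := Finset.Icc 1 m) I
  rw [Nat.card_Icc] at e
  have a1 := key ((Finset.Icc 1 m).filter I) (Finset.filter_subset _ _) (by
    intro i hi j hj hij
    have hi' := Finset.mem_Icc.1 (Finset.mem_filter.1 hi).1
    have hj' := Finset.mem_Icc.1 (Finset.mem_filter.1 hj).1
    exact h1 i j hi'.1 hij hj'.2 (Finset.mem_filter.1 hj).2)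
  have a2 := key ((Finset.Icc 1 m).filter (fun i => ¬ I i)) (Finset.filter_subset _ _) (by
    intro i hi j hj hij
    have hi' := Finset.mem_Icc.1 (Finset.mem_filter.1 hi).1
    have hj' := Finset.mem_Icc.1 (Finset.mem_filter.1 hj).1
    exact h2 i j hi'.1 hij hj'.2 (Finset.mem_filter.1 hi).2)
  omega

/-- Every drawing of the chain of pairs is wide and high. -/
theorem fits_lower {n : ℕ} (D : Drawing (GE n)) {W H : ℕ} (hfit : D.Fits W H) {m : ℕ}
    (hm : 4 * m + 7 < n) : m ≤ 2 * (W + 1) ∧ m ≤ 2 * (H + 1) := by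
  classical
  obtain ⟨a, b, hab⟩ := hfit
  have hpts : ∀ i (hi : 4 * i + 7 < n), ∀ p, CP D i hi p → a ≤ p.1 ∧ p.1 ≤ a + W := by
    rintro i hi p ⟨u, v, hce, hp⟩
    have hE : GE n ⟨u, by unfold CE at hce; omega⟩ ⟨v, by unfold CE at hce; omega⟩ := hce.adj
    have := hab p (Or.inr ⟨_, _, hE, hp⟩)
    exact ⟨this.1, this.2.1⟩
  have hmin : ∀ i (hi : 4 * i + 7 < n), ∃ L : ℤ, (∃ q, CP D i hi q ∧ q.1 = L) ∧
      ∀ q, CP D i hi q → L ≤ q.1 := by
    intro i hi
    have hce : CE i (4 * i) (4 * i + 2) := ⟨Or.inl rfl, Or.inl rfl⟩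
    have hh := D.head ⟨4 * i, by omega⟩ ⟨4 * i + 2, by omega⟩ hce.adj
    have hmem := List.mem_of_mem_head? hh
    obtain ⟨L, ⟨q, hq, hqL⟩, hL⟩ := Int.exists_least_of_bdd (P := fun z => ∃ q, CP D i hi q ∧ q.1 = z)
      ⟨a, by rintro z ⟨q, hq, rfl⟩; exact (hpts i hi q hq).1⟩
      ⟨_, _, ⟨_, _, hce, hmem⟩, rfl⟩
    exact ⟨L, ⟨q, hq, hqL⟩, fun q' hq' => hL _ ⟨q', hq', rfl⟩⟩
  choose L hL1 hL2 using hmin
  have hLin : ∀ {i j : ℕ} (hi : 4 * i + 7 < n) (hj : 4 * j + 7 < n), Inside D i j hi hj →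
      L j hj < L i hi := by
    intro i j hi hj h
    obtain ⟨q, hq, hqL⟩ := hL1 i hi
    obtain ⟨q', hq', hlt⟩ := inside_left D hi hj h hq
    have := hL2 j hj q' hq'
    omega
  constructor
  · refine count_two m W a (fun i => if hi : 4 * i + 7 < n then L i hi else 0)
      (fun i => ∃ hi : 4 * i + 7 < n, pr D i hi (pt D 0 (by omega)) ≠ 0) ?_ ?_ ?_
    · intro i h1 h2
      have hi : 4 * i + 7 < n := by omega
      simp only [dif_pos hi]
      obtain ⟨q, hq, hqL⟩ := hL1 i hi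
      rw [← hqL]
      exact hpts i hi q hq
    · rintro i j h1 h2 h3 ⟨hj, hI⟩
      have hi : 4 * i + 7 < n := by omega
      simp only [dif_pos hi, dif_pos hj]
      exact (hLin hi hj ((inside_or D hi hj h2).1 hI)).ne'
    · intro i j h1 h2 h3 hI
      have hi : 4 * i + 7 < n := by omega
      have hj : 4 * j + 7 < n := by omega
      simp only [dif_pos hi, dif_pos hj]
      have h0 : pr D i hi (pt D 0 (by omega)) = 0 := by
        by_contra hne
        exact hI ⟨hi, hne⟩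
      exact (hLin hj hi ((inside_or D hi hj h2).2 h1 h0)).ne
  · refine count_two m H b (fun i => if hi : 4 * i + 7 < n then topv D i hi else 0)
      (fun i => ∃ hi : 4 * i + 7 < n, pr D i hi (pt D 0 (by omega)) ≠ 0) ?_ ?_ ?_
    · intro i h1 h2
      have hi : 4 * i + 7 < n := by omega
      simp only [dif_pos hi]
      unfold topv
      have e1 := hab (D.pos ⟨4 * i + 2, by omega⟩) (Or.inl ⟨_, rfl⟩)
      have e2 := hab (D.pos ⟨4 * i + 3, by omega⟩) (Or.inl ⟨_, rfl⟩)
      exact ⟨le_trans e1.2.2.1 (le_max_left _ _), max_le e1.2.2.2 e2.2.2.2⟩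
    · rintro i j h1 h2 h3 ⟨hj, hI⟩
      have hi : 4 * i + 7 < n := by omega
      simp only [dif_pos hi, dif_pos hj]
      exact (inside_top D hi hj ((inside_or D hi hj h2).1 hI)).ne
    · intro i j h1 h2 h3 hI
      have hi : 4 * i + 7 < n := by omega
      have hj : 4 * j + 7 < n := by omega
      simp only [dif_pos hi, dif_pos hj]
      have h0 : pr D i hi (pt D 0 (by omega)) = 0 := by
        by_contra hne
        exact hI ⟨hi, hne⟩
      exact (inside_top D hj hi ((inside_or D hi hj h2).2 h1 h0)).ne'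

/-- the area of every drawing of the chain of pairs -/
theorem area_lower {n : ℕ} (hn : 19 ≤ n) (D : Drawing (GE n)) {W H : ℕ} (hfit : D.Fits W H) :
    ((n : ℝ) - 19) ^ 2 / 64 ≤ ((W * H : ℕ) : ℝ) := by
  obtain ⟨h1, h2⟩ := fits_lower D hfit (m := (n - 8) / 4) (by omega)
  have a1 : n ≤ 8 * W + 19 := by omega
  have a2 : n ≤ 8 * H + 19 := by omega
  have b1 : (n : ℝ) - 19 ≤ 8 * W := by
    have : (n : ℝ) ≤ 8 * W + 19 := by exact_mod_cast a1
    linarith
  have b2 : (n : ℝ) - 19 ≤ 8 * H := by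
    have : (n : ℝ) ≤ 8 * H + 19 := by exact_mod_cast a2
    linarith
  have b0 : (0 : ℝ) ≤ (n : ℝ) - 19 := by
    have : (19 : ℝ) ≤ n := by exact_mod_cast hn
    linarith
  have : ((n : ℝ) - 19) * ((n : ℝ) - 19) ≤ (8 * W) * (8 * H) :=
    mul_le_mul b1 b2 b0 (by positivity)
  push_cast
  nlinarith

end Pool.Agent.N371.UD
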