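import Pool.Agent.N371.UD.Defs

/-!
The chain of pairs: every upward planar drawing contains many nested closed curves.
-/

set_option autoImplicit false

namespace Pool.Agent.N371.UD

/-- Adjacency in the chain of pairs: the pair number `k` consists of the numbers `2k`, `2k + 1`; every
member of a pair with even number is joined to the members of the two neighbouring pairs. -/
def Adj (u v : ℕ) : Prop := (u / 2) % 2 = 0 ∧ (v / 2) % 2 = 1 ∧ (u / 2 + 1 = v / 2 ∨ v / 2 + 1 = u / 2)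

/-- the chain of pairs on `n` vertices -/
def GE (n : ℕ) : Fin n → Fin n → Prop := fun u v => Adj u.1 v.1

theorem Adj.ne {u v : ℕ} (h : Adj u v) : u ≠ v := by
  rintro rfl
  have h1 := h.1
  have h2 := h.2.1
  omega

section
variable {n : ℕ} (D : Drawing (GE n))

/-- the curve of an edge -/
noncomputable def ecv (u v : ℕ) (hu : u < n) (hv : v < n) (h : Adj u v) : MCurve :=
  D.cv (u := ⟨u, hu⟩) (v := ⟨v, hv⟩) h (fun he => h.ne (congrArg Fin.val he))

/-- the point of a vertex -/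
def pt (u : ℕ) (hu : u < n) : ℝ × ℝ := toR (D.pos ⟨u, hu⟩)

theorem ecv_lo (u v : ℕ) (hu : u < n) (hv : v < n) (h : Adj u v) :
    (ecv D u v hu hv h).lo = pt D u hu := rfl

theorem ecv_hi (u v : ℕ) (hu : u < n) (hv : v < n) (h : Adj u v) :
    (ecv D u v hu hv h).hi = pt D v hv := rfl

theorem pt_ne {u v : ℕ} (hu : u < n) (hv : v < n) (h : u ≠ v) : pt D u hu ≠ pt D v hv :=
  D.toR_ne (fun he => h (congrArg Fin.val he))

theorem ecv_disj {u v u' v' : ℕ} (hu : u < n) (hv : v < n) (h : Adj u v) (hu' : u' < n)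
    (hv' : v' < n) (h' : Adj u' v') (h1 : u ≠ u') (h2 : v ≠ v') :
    Disj (ecv D u v hu hv h) (ecv D u' v' hu' hv' h') := by
  apply D.disj
  · exact fun he => h1 (congrArg Fin.val he)
  · intro he
    have : u = v' := congrArg Fin.val he
    have a1 := h.1
    have a2 := h'.2.1
    rw [this] at a1
    omega
  · intro he
    have : v = u' := congrArg Fin.val he
    have a1 := h'.1
    have a2 := h.2.1
    rw [this] at a2
    omega
  · exact fun he => h2 (congrArg Fin.val he)

theorem aca (i : ℕ) : Adj (4 * i) (4 * i + 2) := by unfold Adj; omega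
theorem acb (i : ℕ) : Adj (4 * i) (4 * i + 3) := by unfold Adj; omega
theorem ada (i : ℕ) : Adj (4 * i + 1) (4 * i + 2) := by unfold Adj; omega
theorem adb (i : ℕ) : Adj (4 * i + 1) (4 * i + 3) := by unfold Adj; omega

/-- the parity of the position of a point with respect to the cycle formed by the pairs with
numbers `2i` and `2i + 1` -/
noncomputable def pr (i : ℕ) (hi : 4 * i + 7 < n) (p : ℝ × ℝ) : ZMod 2 :=
  par (ecv D (4 * i) (4 * i + 2) (by omega) (by omega) (aca i))
    (ecv D (4 * i) (4 * i + 3) (by omega) (by omega) (acb i))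
    (ecv D (4 * i + 1) (4 * i + 2) (by omega) (by omega) (ada i))
    (ecv D (4 * i + 1) (4 * i + 3) (by omega) (by omega) (adb i)) p

theorem pr_closed (i : ℕ) (hi : 4 * i + 7 < n) :
    Closed4 (ecv D (4 * i) (4 * i + 2) (by omega) (by omega) (aca i))
    (ecv D (4 * i) (4 * i + 3) (by omega) (by omega) (acb i))
    (ecv D (4 * i + 1) (4 * i + 2) (by omega) (by omega) (ada i))
    (ecv D (4 * i + 1) (4 * i + 3) (by omega) (by omega) (adb i)) := ⟨rfl, rfl, rfl, rfl⟩

theorem pr_edge (i : ℕ) (hi : 4 * i + 7 < n) {u v : ℕ} (hu : u < n) (hv : v < n) (h : Adj u v)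
    (h1 : u / 2 ≠ 2 * i) (h2 : v / 2 ≠ 2 * i + 1) {y0 y1 : ℝ}
    (a0 : (ecv D u v hu hv h).lo.2 ≤ y0) (b0 : y0 ≤ (ecv D u v hu hv h).hi.2)
    (a1 : (ecv D u v hu hv h).lo.2 ≤ y1) (b1 : y1 ≤ (ecv D u v hu hv h).hi.2) :
    pr D i hi ((ecv D u v hu hv h).F y1, y1) = pr D i hi ((ecv D u v hu hv h).F y0, y0) :=
  par_const_curve (pr_closed D i hi) (ecv D u v hu hv h)
    (ecv_disj D _ _ _ _ _ _ (by omega) (by omega)) (ecv_disj D _ _ _ _ _ _ (by omega) (by omega))
    (ecv_disj D _ _ _ _ _ _ (by omega) (by omega)) (ecv_disj D _ _ _ _ _ _ (by omega) (by omega))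
    a0 b0 a1 b1

theorem pr_ends (i : ℕ) (hi : 4 * i + 7 < n) {u v : ℕ} (hu : u < n) (hv : v < n) (h : Adj u v)
    (h1 : u / 2 ≠ 2 * i) (h2 : v / 2 ≠ 2 * i + 1) :
    pr D i hi (pt D v hv) = pr D i hi (pt D u hu) := by
  have := pr_edge D i hi hu hv h h1 h2 (y0 := (ecv D u v hu hv h).lo.2)
    (y1 := (ecv D u v hu hv h).hi.2) le_rfl (ecv D u v hu hv h).lt.le
    (ecv D u v hu hv h).lt.le le_rfl
  rwa [F_lo, F_hi] at this

theorem pr_step (i : ℕ) (hi : 4 * i + 7 < n) {u v : ℕ} (hu : u < n) (hv : v < n)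
    (h : u / 2 + 1 = v / 2 ∨ v / 2 + 1 = u / 2) (h1 : u / 2 ≠ 2 * i) (h2 : v / 2 ≠ 2 * i + 1)
    (h3 : v / 2 ≠ 2 * i) (h4 : u / 2 ≠ 2 * i + 1) :
    pr D i hi (pt D v hv) = pr D i hi (pt D u hu) := by
  rcases Nat.mod_two_eq_zero_or_one (u / 2) with hp | hp
  · exact pr_ends D i hi hu hv ⟨hp, by omega, h⟩ h1 h2
  · exact (pr_ends D i hi hv hu ⟨by omega, hp, by omega⟩ h3 h4).symm

theorem pr_low (i : ℕ) (hi : 4 * i + 7 < n) (hi1 : 1 ≤ i) : ∀ (d w : ℕ) (hw : w < 4 * i),
    2 * i - 1 - w / 2 = d → pr D i hi (pt D w (by omega)) = pr D i hi (pt D (4 * i - 4) (by omega)) := by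
  intro d
  induction d with
  | zero =>
    intro w hw hd
    exact pr_step D i hi (by omega) (by omega) (by omega) (by omega) (by omega) (by omega)
      (by omega)
  | succ d ih =>
    intro w hw hd
    have h1 := ih (2 * (w / 2 + 1)) (by omega) (by omega)
    rw [← h1]
    exact pr_step D i hi (by omega) (by omega) (by omega) (by omega) (by omega) (by omega)
      (by omega)

theorem pr_high (i : ℕ) (hi : 4 * i + 7 < n) : ∀ (d w : ℕ) (hw : w < n),
    w / 2 = 2 * i + 2 + d → pr D i hi (pt D w hw) = pr D i hi (pt D (4 * i + 4) (by omega)) := by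
  intro d
  induction d with
  | zero =>
    intro w hw hd
    have h1 : pr D i hi (pt D w hw) = pr D i hi (pt D (4 * i + 6) (by omega)) :=
      pr_step D i hi (by omega) (by omega) (by omega) (by omega) (by omega) (by omega) (by omega)
    have h2 : pr D i hi (pt D (4 * i + 4) (by omega)) = pr D i hi (pt D (4 * i + 6) (by omega)) :=
      pr_step D i hi (by omega) (by omega) (by omega) (by omega) (by omega) (by omega) (by omega)
    rw [h1, h2]
  | succ d ih =>
    intro w hw hd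
    have h1 := ih (2 * (w / 2 - 1)) (by omega) (by omega)
    rw [← h1]
    exact pr_step D i hi (by omega) (by omega) (by omega) (by omega) (by omega) (by omega)
      (by omega)

/-- the cycle separates the earlier pairs from the later pairs -/
theorem pr_sep (i : ℕ) (hi : 4 * i + 7 < n) (hi1 : 1 ≤ i) {w w' : ℕ} (hw : w < 4 * i)
    (hw' : w' < n) (h4 : 4 * i + 4 ≤ w') :
    pr D i hi (pt D w (by omega)) + pr D i hi (pt D w' hw') = 1 := by
  have e1 := pr_low D i hi hi1 _ w hw rfl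
  have e2 := pr_low D i hi hi1 _ (4 * i - 2) (by omega) rfl
  have e3 := pr_high D i hi (w' / 2 - (2 * i + 2)) w' hw' (by omega)
  rw [e1, ← e2, e3]
  have aea : Adj (4 * i + 4) (4 * i + 2) := by unfold Adj; omega
  have aeb : Adj (4 * i + 4) (4 * i + 3) := by unfold Adj; omega
  have acg : Adj (4 * i) (4 * i - 2) := by unfold Adj; omega
  have adg : Adj (4 * i + 1) (4 * i - 2) := by unfold Adj; omega
  exact separation (pr_closed D i hi)
    (ea := ecv D (4 * i + 4) (4 * i + 2) (by omega) (by omega) aea)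
    (eb := ecv D (4 * i + 4) (4 * i + 3) (by omega) (by omega) aeb)
    (cg := ecv D (4 * i) (4 * i - 2) (by omega) (by omega) acg)
    (dg := ecv D (4 * i + 1) (4 * i - 2) (by omega) (by omega) adg)
    rfl rfl rfl rfl rfl rfl
    (pt_ne D _ _ (by omega)) (pt_ne D _ _ (by omega)) (pt_ne D _ _ (by omega))
    (pt_ne D _ _ (by omega))
    (ecv_disj D _ _ _ _ _ _ (by omega) (by omega)) (ecv_disj D _ _ _ _ _ _ (by omega) (by omega))
    (ecv_disj D _ _ _ _ _ _ (by omega) (by omega)) (ecv_disj D _ _ _ _ _ _ (by omega) (by omega))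
    (ecv_disj D _ _ _ _ _ _ (by omega) (by omega)) (ecv_disj D _ _ _ _ _ _ (by omega) (by omega))
    (ecv_disj D _ _ _ _ _ _ (by omega) (by omega)) (ecv_disj D _ _ _ _ _ _ (by omega) (by omega))
    (ecv_disj D _ _ _ _ _ _ (by omega) (by omega)) (ecv_disj D _ _ _ _ _ _ (by omega) (by omega))
    (ecv_disj D _ _ _ _ _ _ (by omega) (by omega)) (ecv_disj D _ _ _ _ _ _ (by omega) (by omega))
    (ecv_disj D _ _ _ _ _ _ (by omega) (by omega)) (ecv_disj D _ _ _ _ _ _ (by omega) (by omega))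

/-- The edges of the cycle number `i`. -/
def CE (i u v : ℕ) : Prop := (u = 4 * i ∨ u = 4 * i + 1) ∧ (v = 4 * i + 2 ∨ v = 4 * i + 3)

theorem CE.adj {i u v : ℕ} (h : CE i u v) : Adj u v := by
  unfold CE at h; unfold Adj; omega

/-- The cycle number `i` is enclosed by the cycle number `j`. -/
def Inside (i j : ℕ) (hi : 4 * i + 7 < n) (hj : 4 * j + 7 < n) : Prop :=
  ∀ u v (h : CE i u v) (y : ℝ),
    (ecv D u v (by unfold CE at h; omega) (by unfold CE at h; omega) h.adj).lo.2 ≤ y →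
    y ≤ (ecv D u v (by unfold CE at h; omega) (by unfold CE at h; omega) h.adj).hi.2 →
    pr D j hj ((ecv D u v (by unfold CE at h; omega) (by unfold CE at h; omega) h.adj).F y, y) ≠ 0

theorem inside_or {i j : ℕ} (hi : 4 * i + 7 < n) (hj : 4 * j + 7 < n) (hij : i < j) :
    (pr D j hj (pt D 0 (by omega)) ≠ 0 → Inside D i j hi hj) ∧
    (1 ≤ i → pr D i hi (pt D 0 (by omega)) = 0 → Inside D j i hj hi) := by
  constructor
  · intro h0 u v h y h1 h2
    have hu : u < n := by unfold CE at h; omega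
    have hv : v < n := by unfold CE at h; omega
    have e1 := pr_edge D j hj hu hv h.adj (by unfold CE at h; omega) (by unfold CE at h; omega)
      (y0 := (ecv D u v hu hv h.adj).lo.2) (y1 := y) le_rfl (ecv D u v hu hv h.adj).lt.le h1 h2
    rw [F_lo, ecv_lo] at e1
    rw [e1]
    have e2 := pr_low D j hj (by omega) _ u (by unfold CE at h; omega) rfl
    have e3 := pr_low D j hj (by omega) _ 0 (by omega) rfl
    rw [e2, ← e3]
    exact h0
  · intro hi1 h0 u v h y h1 h2
    have hu : u < n := by unfold CE at h; omega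
    have hv : v < n := by unfold CE at h; omega
    have e1 := pr_edge D i hi hu hv h.adj (by unfold CE at h; omega) (by unfold CE at h; omega)
      (y0 := (ecv D u v hu hv h.adj).lo.2) (y1 := y) le_rfl (ecv D u v hu hv h.adj).lt.le h1 h2
    rw [F_lo, ecv_lo] at e1
    rw [e1]
    have e2 := pr_sep D i hi hi1 (w := 0) (w' := u) (by omega) hu (by unfold CE at h; omega)
    rw [h0, zero_add] at e2
    rw [e2]
    exact one_ne_zero

/-- the height of the highest corner of a cycle -/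
noncomputable def topv (i : ℕ) (hi : 4 * i + 7 < n) : ℤ :=
  max (D.pos ⟨4 * i + 2, by omega⟩).2 (D.pos ⟨4 * i + 3, by omega⟩).2

theorem inside_top {i j : ℕ} (hi : 4 * i + 7 < n) (hj : 4 * j + 7 < n) (h : Inside D i j hi hj) :
    topv D i hi < topv D j hj := by
  have key : ∀ v (hv : v = 4 * i + 2 ∨ v = 4 * i + 3),
      (D.pos ⟨v, by omega⟩).2 < topv D j hj := by
    intro v hv
    have hce : CE i (4 * i) v := ⟨Or.inl rfl, hv⟩
    have h1 := h (4 * i) v hce _ (ecv D (4 * i) v (by omega) (by omega) hce.adj).lt.le le_rfl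
    rw [F_hi, ecv_hi] at h1
    obtain ⟨f, hf, h2, h3, -⟩ := par_ne_zero (pr_closed D j hj) h1
    have h4 : f.hi.2 ≤ (topv D j hj : ℝ) := by
      have a1 : ((D.pos ⟨4 * j + 2, by omega⟩).2 : ℝ) ≤ topv D j hj := by
        exact_mod_cast le_max_left _ _
      have a2 : ((D.pos ⟨4 * j + 3, by omega⟩).2 : ℝ) ≤ topv D j hj := by
        exact_mod_cast le_max_right _ _
      rcases hf with rfl | rfl | rfl | rfl
      · exact a1
      · exact a2
      · exact a1
      · exact a2
    have h5 : ((D.pos ⟨v, by omega⟩).2 : ℝ) < (topv D j hj : ℝ) := lt_of_lt_of_le h3 h4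
    exact_mod_cast h5
  exact max_lt (key _ (Or.inl rfl)) (key _ (Or.inr rfl))

/-- the points (corners and bends) of the cycle number `i` -/
def CP (i : ℕ) (hi : 4 * i + 7 < n) (p : ℤ × ℤ) : Prop :=
  ∃ u v, ∃ h : CE i u v, p ∈ D.chain ⟨u, by unfold CE at h; omega⟩ ⟨v, by unfold CE at h; omega⟩

theorem inside_left {i j : ℕ} (hi : 4 * i + 7 < n) (hj : 4 * j + 7 < n) (h : Inside D i j hi hj)
    {p : ℤ × ℤ} (hp : CP D i hi p) : ∃ q, CP D j hj q ∧ q.1 < p.1 := by
  obtain ⟨u, v, hce, hmem⟩ := hp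
  have hu : u < n := by unfold CE at hce; omega
  have hv : v < n := by unfold CE at hce; omega
  have hE : GE n ⟨u, hu⟩ ⟨v, hv⟩ := hce.adj
  have hup := D.up _ _ hE
  have hhead := D.head _ _ hE
  have hlast := D.last _ _ hE
  have b1 : (ecv D u v hu hv hce.adj).lo.2 ≤ (p.2 : ℝ) := by
    have : (D.pos ⟨u, hu⟩).2 ≤ p.2 := by
      obtain ⟨t, ht⟩ : ∃ t, D.chain ⟨u, hu⟩ ⟨v, hv⟩ = D.pos ⟨u, hu⟩ :: t := by
        cases hl : D.chain ⟨u, hu⟩ ⟨v, hv⟩ with
        | nil => rw [hl] at hhead; simp at hhead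
        | cons a t => rw [hl] at hhead; simp at hhead; exact ⟨t, by rw [hhead]⟩
      rw [ht] at hup hmem
      exact up_head_le hup p hmem
    change ((D.pos ⟨u, hu⟩).2 : ℝ) ≤ p.2
    exact_mod_cast this
  have b2 : (p.2 : ℝ) ≤ (ecv D u v hu hv hce.adj).hi.2 := by
    have := up_le_last hup hlast p hmem
    change (p.2 : ℝ) ≤ ((D.pos ⟨v, hv⟩).2 : ℝ)
    exact_mod_cast this
  have hF : (ecv D u v hu hv hce.adj).F p.2 = p.1 := ev_mem hup hmem
  have h1 := h u v hce p.2 b1 b2
  rw [hF] at h1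
  obtain ⟨f, hf, -, -, h3⟩ := par_ne_zero (pr_closed D j hj) h1
  have key : ∀ u' v' (h' : CE j u' v'),
      f = ecv D u' v' (by unfold CE at h'; omega) (by unfold CE at h'; omega) h'.adj →
      ∃ q, CP D j hj q ∧ q.1 < p.1 := by
    intro u' v' h' hfe
    by_contra hcon
    push Not at hcon
    have hE' : GE n ⟨u', by unfold CE at h'; omega⟩ ⟨v', by unfold CE at h'; omega⟩ := h'.adj
    have hne : D.chain ⟨u', by unfold CE at h'; omega⟩ ⟨v', by unfold CE at h'; omega⟩ ≠ [] := by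
      intro h0
      have := D.head _ _ hE'
      rw [h0] at this
      simp at this
    have := ev_ge (D.up _ _ hE') hne (p.1 : ℝ) (fun q hq => by
      have := hcon q ⟨u', v', h', hq⟩
      exact_mod_cast this) (p.2 : ℝ)
    rw [hfe] at h3
    exact absurd h3 (not_lt.2 this)
  rcases hf with hf | hf | hf | hf
  · exact key _ _ ⟨Or.inl rfl, Or.inl rfl⟩ hf
  · exact key _ _ ⟨Or.inl rfl, Or.inr rfl⟩ hf
  · exact key _ _ ⟨Or.inr rfl, Or.inl rfl⟩ hf
  · exact key _ _ ⟨Or.inr rfl, Or.inr rfl⟩ hf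

end

end Pool.Agent.N371.UD
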